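import Pool.Agent.Q45.P5.Rup

/-!
# Versions of the checker for the kernel

The values are forced, so that no computation is repeated, and the recursors are used directly.
-/

set_option autoImplicit false

namespace Pool.Agent.Q45.Rup

/-- Case distinction. -/
noncomputable def ite' {α : Type} (c : Bool) (x y : α) : α :=
  Bool.rec (motive := fun _ => α) y x c

theorem ite'_eq {α : Type} (c : Bool) (x y : α) : ite' c x y = cond c x y := by
  cases c <;> rfl

/-- Force a natural number. -/
noncomputable def force {α : Type} (n : Nat) (k : Nat → α) : α :=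
  Nat.rec (motive := fun _ => α) (k 0) (fun m _ => k (Nat.succ m)) n

theorem force_eq {α : Type} (n : Nat) (k : Nat → α) : force n k = k n := by
  cases n <;> rfl

/-- `DB.get` with a continuation. -/
noncomputable def getK (db : DB) : Nat → (Nat → Nat → Bool) → Bool :=
  DB.rec (motive := fun _ => Nat → (Nat → Nat → Bool) → Bool) (fun _ k => k 1 1)
    (fun P N _ _ ihl ihr i k =>
      ite' (Nat.beq i 1) (k P N)
        (force (Nat.div i 2) fun j => ite' (Nat.beq (Nat.mod i 2) 0) (ihl j k) (ihr j k))) db

theorem getK_eq : ∀ (db : DB) (i : Nat) (k : Nat → Nat → Bool),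
    getK db i k = k (db.get i).1 (db.get i).2
  | .leaf, _, _ => rfl
  | .node P N l r, i, k => by
    have h : getK (.node P N l r) i k = ite' (Nat.beq i 1) (k P N)
        (force (Nat.div i 2) fun j => ite' (Nat.beq (Nat.mod i 2) 0) (getK l j k) (getK r j k)) :=
      rfl
    rw [h, DB.get, force_eq, getK_eq l, getK_eq r, ite'_eq, ite'_eq]
    rcases Nat.beq i 1 with _ | _
    · rcases Nat.beq (Nat.mod i 2) 0 with _ | _ <;> rfl
    · rfl

/-- `DB.ins` with a continuation. -/
noncomputable def insK (P N : Nat) (db : DB) : Nat → (DB → Bool) → Bool :=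
  DB.rec (motive := fun _ => Nat → (DB → Bool) → Bool) (fun _ k => k (.node P N .leaf .leaf))
    (fun P' N' l r ihl ihr i k =>
      ite' (Nat.beq i 1) (k (.node P N l r))
        (force (Nat.div i 2) fun j =>
          ite' (Nat.beq (Nat.mod i 2) 0) (ihl j fun l' => k (.node P' N' l' r))
            (ihr j fun r' => k (.node P' N' l r')))) db

theorem insK_eq (P N : Nat) : ∀ (db : DB) (i : Nat) (k : DB → Bool),
    insK P N db i k = k (db.ins i P N)
  | .leaf, _, _ => rfl
  | .node P' N' l r, i, k => by
    have h : insK P N (.node P' N' l r) i k = ite' (Nat.beq i 1) (k (.node P N l r))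
        (force (Nat.div i 2) fun j => ite' (Nat.beq (Nat.mod i 2) 0)
          (insK P N l j fun l' => k (.node P' N' l' r))
          (insK P N r j fun r' => k (.node P' N' l r'))) := rfl
    rw [h, DB.ins, force_eq, insK_eq P N l, insK_eq P N r, ite'_eq, ite'_eq]
    rcases Nat.beq i 1 with _ | _
    · rcases Nat.beq (Nat.mod i 2) 0 with _ | _ <;> rfl
    · rfl

/-- `rup` with forced values. -/
noncomputable def rupK (db : DB) (hs : List Nat) : Nat → Nat → Bool :=
  List.rec (motive := fun _ => Nat → Nat → Bool) (fun _ _ => false)
    (fun h _ ih T F =>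
      getK db h fun P N =>
        force (Nat.xor P (Nat.land P F)) fun p =>
          force (Nat.xor N (Nat.land N T)) fun n =>
            ite' (Nat.beq n 0)
              (ite' (Nat.beq p 0) true
                (ite' (single p)
                  (force (Nat.lor T p) fun T' => ih T' F) false))
              (ite' (Nat.beq p 0)
                (ite' (single n)
                  (force (Nat.lor F n) fun F' => ih T F') false) false)) hs

theorem beq_xor (a b : Nat) : Nat.beq (Nat.xor a b) 0 = Nat.beq b a := by
  have h1 : (Nat.beq (Nat.xor a b) 0 = true) ↔ (Nat.beq b a = true) := by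
    rw [Nat.beq_eq, Nat.beq_eq]
    have : Nat.xor a b = a ^^^ b := rfl
    rw [this, Nat.xor_eq_zero_iff]
    exact eq_comm
  rcases h : Nat.beq b a with _ | _
  · rcases h' : Nat.beq (Nat.xor a b) 0 with _ | _
    · rfl
    · rw [h'] at h1
      rw [h1.1 rfl] at h
      exact absurd h (by decide)
  · rw [h1.2 h]

theorem rupK_eq (db : DB) : ∀ (hs : List Nat) (T F : Nat), rupK db hs T F = rup db hs T F
  | [], _, _ => rfl
  | h :: hs, T, F => by
    have h1 : rupK db (h :: hs) T F = getK db h fun P N =>
        force (Nat.xor P (Nat.land P F)) fun p =>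
          force (Nat.xor N (Nat.land N T)) fun n =>
            ite' (Nat.beq n 0)
              (ite' (Nat.beq p 0) true
                (ite' (single p)
                  (force (Nat.lor T p) fun T' => rupK db hs T' F) false))
              (ite' (Nat.beq p 0)
                (ite' (single n)
                  (force (Nat.lor F n) fun F' => rupK db hs T F') false) false) := rfl
    rw [h1, rup, getK_eq]
    rcases db.get h with ⟨P, N⟩
    simp only [force_eq, beq_xor, ite'_eq]
    rw [rupK_eq db hs, rupK_eq db hs]

/-- `run` with forced values. -/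
noncomputable def runK (l : List (Nat × Nat × List Nat)) : Nat → DB → Bool :=
  List.rec (motive := fun _ => Nat → DB → Bool) (fun _ _ => false)
    (fun x _ ih k db =>
      Prod.rec (motive := fun _ => Bool) (fun P y => Prod.rec (motive := fun _ => Bool)
        (fun N hs => ite' (rupK db hs N P)
          (ite' (Nat.beq (Nat.lor P N) 0) true
            (force (Nat.succ k) fun k' => insK P N db k fun db' => ih k' db')) false) y) x) l

theorem runK_eq : ∀ (l : List (Nat × Nat × List Nat)) (k : Nat) (db : DB),
    runK l k db = run l k db
  | [], _, _ => rfl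
  | (P, N, hs) :: rest, k, db => by
    have h1 : runK ((P, N, hs) :: rest) k db = ite' (rupK db hs N P)
          (ite' (Nat.beq (Nat.lor P N) 0) true
            (force (Nat.succ k) fun k' => insK P N db k fun db' => runK rest k' db')) false := rfl
    rw [h1, run, rupK_eq, force_eq, insK_eq, runK_eq rest, ite'_eq, ite'_eq]

/-- `build` with a continuation. -/
noncomputable def buildK (l : List (Nat × Nat)) : Nat → DB → (DB → Bool) → Bool :=
  List.rec (motive := fun _ => Nat → DB → (DB → Bool) → Bool) (fun _ db k => k db)
    (fun x _ ih i db k =>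
      Prod.rec (motive := fun _ => Bool) (fun P N =>
        force (Nat.succ i) fun i' => insK P N db i fun db' => ih i' db' k) x) l

theorem buildK_eq : ∀ (l : List (Nat × Nat)) (i : Nat) (db : DB) (k : DB → Bool),
    buildK l i db k = k (build l i db)
  | [], _, _, _ => rfl
  | (P, N) :: rest, i, db, k => by
    have h1 : buildK ((P, N) :: rest) i db k =
        force (Nat.succ i) fun i' => insK P N db i fun db' => buildK rest i' db' k := rfl
    rw [h1, build, force_eq, insK_eq, buildK_eq rest]

/-- The whole check. -/
noncomputable def checkAll (orig : List (Nat × Nat)) (n : Nat)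
    (steps : List (Nat × Nat × List Nat)) : Bool :=
  buildK orig 1 .leaf fun db => runK steps n db

theorem checkAll_sound {v : Nat → Bool} (orig : List (Nat × Nat)) (n : Nat)
    (steps : List (Nat × Nat × List Nat)) (h : checkAll orig n steps = true)
    (hv : ∀ c ∈ orig, Sat v c.1 c.2) : False := by
  rw [checkAll, buildK_eq, runK_eq] at h
  exact run_sound steps n _ (build_valid orig 1 .leaf trivial hv) h

end Pool.Agent.Q45.Rup
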