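import Pool.Agent.Q45.P5.Data
import Pool.Agent.Q45.P5.Fast

/-!
# The clauses and the check of the refutation
-/

set_option autoImplicit false

namespace Pool.Agent.Q45.P5

open Rup

/-- The colour of a term. -/
def fcol (i : Nat) : Nat := colT.getD i 0

/-- The parent of a term. -/
def par (i : Nat) : Nat := parT.getD i 0

/-- The variable `g i = k`. -/
def gv (i k : Nat) : Nat := Nat.add (Nat.mul 3 i) k

/-- The variable that `a` and `b` are adjacent. -/
def ev (a b : Nat) : Nat :=
  cond (Nat.ble a b) (Nat.add 72 (Nat.add (Nat.mul 24 a) b)) (Nat.add 72 (Nat.add (Nat.mul 24 b) a))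

/-- The list of the variable of a pair of terms, empty if the colours agree. -/
def pv (a b : Nat) : List Nat := cond (Nat.beq (fcol a) (fcol b)) [] [ev a b]

/-- The bounds and side conditions of a code. -/
def Code.ok : Code → Bool
  | .one i => Nat.blt i 24
  | .amo i k l => Nat.blt i 24 && !Nat.beq k l && Nat.blt k 3 && Nat.blt l 3
  | .col a b k => Nat.blt a 24 && Nat.blt b 24 && !Nat.beq a b && Nat.blt k 3
  | .edge i => Nat.blt i 24 && !Nat.beq i 0 && !Nat.beq i (par i) && Nat.blt (par i) 24
  | .fix i => Nat.blt i 3
  | .p5 a b c d e => Nat.blt a 24 && Nat.blt b 24 && Nat.blt c 24 && Nat.blt d 24 && Nat.blt e 24 &&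
      !Nat.beq a b && !Nat.beq a c && !Nat.beq a d && !Nat.beq a e && !Nat.beq b c &&
      !Nat.beq b d && !Nat.beq b e && !Nat.beq c d && !Nat.beq c e && !Nat.beq d e

/-- The positive literals of a code. -/
def Code.pos : Code → List Nat
  | .one i => [gv i 0, gv i 1, gv i 2]
  | .amo _ _ _ => []
  | .col _ _ _ => []
  | .edge i => [ev i (par i)]
  | .fix i => match i with
    | 0 => [gv 0 0]
    | 1 => [gv 1 1]
    | _ => [gv 2 1]
  | .p5 a b c d e => pv a c ++ (pv a d ++ (pv a e ++ (pv b d ++ (pv b e ++ pv c e))))

/-- The negative literals of a code. -/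
def Code.neg : Code → List Nat
  | .one _ => []
  | .amo i k l => [gv i k, gv i l]
  | .col a b k => [ev a b, gv a k, gv b k]
  | .edge _ => []
  | .fix _ => []
  | .p5 a b c d e => [ev a b, ev b c, ev c d, ev d e]

/-- The clause of a code. -/
def Code.cl (c : Code) : Nat × Nat := (mask c.pos, mask c.neg)

/-- The masks are right, and the side conditions hold. -/
def okAll : List (Code × Nat × Nat) → Bool
  | [] => true
  | (c, P, N) :: rest =>
    cond c.ok (cond (Nat.beq (mask c.pos) P) (cond (Nat.beq (mask c.neg) N) (okAll rest) false)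
      false) false

theorem codes_ok : okAll codes = true := by decide +kernel

theorem check : checkAll (codes.map Prod.snd) 637 steps = true := by
  decide +kernel

end Pool.Agent.Q45.P5
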