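import Pool.Agent.Q45.P5.Check

/-!
# No `P₅`-free `3`-colourable graph has a frozen `4`-colouring
-/

set_option autoImplicit false

namespace Pool.Agent.Q45.P5

open Rup

theorem okAll_mem : ∀ (l : List (Code × Nat × Nat)), okAll l = true → ∀ x ∈ l,
    x.1.ok = true ∧ mask x.1.pos = x.2.1 ∧ mask x.1.neg = x.2.2
  | [], _, x, hx => by simp at hx
  | (c, P, N) :: rest, h, x, hx => by
    rw [okAll] at h
    rcases h1 : c.ok with _ | _ <;> rw [h1] at h
    · exact absurd h (by simp)
    rcases h2 : Nat.beq (mask c.pos) P with _ | _ <;> rw [h2] at h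
    · exact absurd h (by simp)
    rcases h3 : Nat.beq (mask c.neg) N with _ | _ <;> rw [h3] at h
    · exact absurd h (by simp)
    simp only [cond_true] at h
    rcases List.mem_cons.1 hx with rfl | hx
    · exact ⟨h1, Nat.eq_of_beq_eq_true h2, Nat.eq_of_beq_eq_true h3⟩
    · exact okAll_mem rest h x hx

section

variable {V : Type*} {G : SimpleGraph V}

/-- No induced path on five vertices. -/
theorem no_path (h : IsEmpty (SimpleGraph.pathGraph 5 ↪g G)) {a b c d e : V} (hab : G.Adj a b)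
    (hbc : G.Adj b c) (hcd : G.Adj c d) (hde : G.Adj d e) (hac : ¬ G.Adj a c) (had : ¬ G.Adj a d)
    (hae : ¬ G.Adj a e) (hbd : ¬ G.Adj b d) (hbe : ¬ G.Adj b e) (hce : ¬ G.Adj c e) : False := by
  have nac : a ≠ c := by rintro rfl; exact had hcd
  have nad : a ≠ d := by rintro rfl; exact hae hde
  have nae : a ≠ e := by rintro rfl; exact had hde.symm
  have nbd : b ≠ d := by rintro rfl; exact hbe hde
  have nbe : b ≠ e := by rintro rfl; exact hbd hde.symm
  have nce : c ≠ e := by rintro rfl; exact hbe hbc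
  refine h.false ⟨⟨![a, b, c, d, e], ?_⟩, ?_⟩
  · intro i j hij
    fin_cases i <;> fin_cases j <;> simp at hij ⊢ <;>
      first
        | exact absurd hij hab.ne
        | exact absurd hij hab.ne'
        | exact absurd hij hbc.ne
        | exact absurd hij hbc.ne'
        | exact absurd hij hcd.ne
        | exact absurd hij hcd.ne'
        | exact absurd hij hde.ne
        | exact absurd hij hde.ne'
        | exact absurd hij nac
        | exact absurd hij nac.symm
        | exact absurd hij nad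
        | exact absurd hij nad.symm
        | exact absurd hij nae
        | exact absurd hij nae.symm
        | exact absurd hij nbd
        | exact absurd hij nbd.symm
        | exact absurd hij nbe
        | exact absurd hij nbe.symm
        | exact absurd hij nce
        | exact absurd hij nce.symm
  · intro i j
    rw [SimpleGraph.pathGraph_adj]
    change G.Adj (![a, b, c, d, e] i) (![a, b, c, d, e] j) ↔ _
    fin_cases i <;> fin_cases j <;>
      simp [hab, hab.symm, hbc, hbc.symm, hcd, hcd.symm, hde, hde.symm, hac, had, hae, hbd, hbe,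
        hce, G.adj_comm c a, G.adj_comm d a, G.adj_comm e a, G.adj_comm d b, G.adj_comm e b,
        G.adj_comm e c]

open Classical in
/-- The valuation. -/
noncomputable def val (G : SimpleGraph V) (g : V → ℕ) (t : ℕ → V) (x : ℕ) : Bool :=
  if x < 72 then decide (g (t (x / 3)) = x % 3)
  else decide (G.Adj (t ((x - 72) / 24)) (t ((x - 72) % 24)))

theorem val_gv (g : V → ℕ) (t : ℕ → V) {i k : ℕ} (hi : i < 24) (hk : k < 3) :
    val G g t (gv i k) = true ↔ g (t i) = k := by
  have h : gv i k = 3 * i + k := rfl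
  have h1 : 3 * i + k < 72 := by omega
  have h2 : (3 * i + k) / 3 = i := by omega
  have h3 : (3 * i + k) % 3 = k := by omega
  rw [h, val, if_pos h1, h2, h3, decide_eq_true_eq]

theorem val_ev (g : V → ℕ) (t : ℕ → V) {a b : ℕ} (ha : a < 24) (hb : b < 24) :
    val G g t (ev a b) = true ↔ G.Adj (t a) (t b) := by
  have key : ∀ x y : ℕ, x < 24 → y < 24 →
      (val G g t (72 + (24 * x + y)) = true ↔ G.Adj (t x) (t y)) := by
    intro x y hx hy
    have h1 : ¬ 72 + (24 * x + y) < 72 := by omega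
    have h2 : (72 + (24 * x + y) - 72) / 24 = x := by omega
    have h3 : (72 + (24 * x + y) - 72) % 24 = y := by omega
    rw [val, if_neg h1, h2, h3]
    exact @decide_eq_true_iff _ (Classical.propDecidable _)
  rw [ev]
  rcases Nat.ble a b with _ | _
  · exact (key b a hb ha).trans (G.adj_comm _ _)
  · exact key a b ha hb

theorem false_of_not {b : Bool} (h : ¬ b = true) : b = false := by simpa using h

/-- All clauses of the list hold. -/
theorem sat_code (hP : IsEmpty (SimpleGraph.pathGraph 5 ↪g G)) (g f : V → ℕ) (t : ℕ → V)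
    (hg3 : ∀ v, g v < 3) (hg : ∀ u v, G.Adj u v → g u ≠ g v) (hf : ∀ u v, G.Adj u v → f u ≠ f v)
    (ht : ∀ i, i < 24 → f (t i) = fcol i)
    (hpar : ∀ i, i ≠ 0 → i < 24 → G.Adj (t i) (t (par i)))
    (h0 : g (t 0) = 0) (h1 : g (t 1) = 1) (h2 : g (t 2) = 1) (c : Code) (hc : c.ok = true) :
    Sat (val G g t) (mask c.pos) (mask c.neg) := by
  apply sat_mask
  cases c with
  | one i =>
    simp only [Code.ok, Nat.blt_eq] at hc
    left
    have h3 := hg3 (t i)
    have h4 : g (t i) = 0 ∨ g (t i) = 1 ∨ g (t i) = 2 := by omega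
    rcases h4 with h4 | h4 | h4
    · exact ⟨gv i 0, by simp [Code.pos], (val_gv g t hc (by norm_num)).2 h4⟩
    · exact ⟨gv i 1, by simp [Code.pos], (val_gv g t hc (by norm_num)).2 h4⟩
    · exact ⟨gv i 2, by simp [Code.pos], (val_gv g t hc (by norm_num)).2 h4⟩
  | amo i k l =>
    simp only [Code.ok, Bool.and_eq_true, Nat.blt_eq, Bool.not_eq_true'] at hc
    obtain ⟨⟨⟨hi, hkl⟩, hk⟩, hl⟩ := hc
    have hkl' : k ≠ l := fun h => by
      rw [h, Nat.beq_refl] at hkl
      exact absurd hkl (by decide)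
    right
    by_cases h : g (t i) = k
    · refine ⟨gv i l, by simp [Code.neg], false_of_not fun h' => ?_⟩
      rw [val_gv g t hi hl] at h'
      exact hkl' (h.symm.trans h')
    · refine ⟨gv i k, by simp [Code.neg], false_of_not fun h' => ?_⟩
      rw [val_gv g t hi hk] at h'
      exact h h'
  | col a b k =>
    simp only [Code.ok, Bool.and_eq_true, Nat.blt_eq, Bool.not_eq_true'] at hc
    obtain ⟨⟨⟨ha, hb⟩, hab⟩, hk⟩ := hc
    right
    by_cases hA : G.Adj (t a) (t b)
    · by_cases h : g (t a) = k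
      · refine ⟨gv b k, by simp [Code.neg], false_of_not fun h' => ?_⟩
        rw [val_gv g t hb hk] at h'
        exact hg _ _ hA (h.trans h'.symm)
      · refine ⟨gv a k, by simp [Code.neg], false_of_not fun h' => ?_⟩
        rw [val_gv g t ha hk] at h'
        exact h h'
    · refine ⟨ev a b, by simp [Code.neg], false_of_not fun h' => ?_⟩
      rw [val_ev g t ha hb] at h'
      exact hA h'
  | edge i =>
    simp only [Code.ok, Bool.and_eq_true, Nat.blt_eq, Bool.not_eq_true'] at hc
    obtain ⟨⟨⟨hi, hi0⟩, _⟩, hp⟩ := hc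
    have hi0' : i ≠ 0 := fun h => by
      rw [h] at hi0
      exact absurd hi0 (by decide)
    left
    exact ⟨ev i (par i), by simp [Code.pos], (val_ev g t hi hp).2 (hpar i hi0' hi)⟩
  | fix i =>
    simp only [Code.ok, Nat.blt_eq] at hc
    left
    interval_cases i
    · exact ⟨gv 0 0, by simp [Code.pos], (val_gv g t (by norm_num) (by norm_num)).2 h0⟩
    · exact ⟨gv 1 1, by simp [Code.pos], (val_gv g t (by norm_num) (by norm_num)).2 h1⟩
    · exact ⟨gv 2 1, by simp [Code.pos], (val_gv g t (by norm_num) (by norm_num)).2 h2⟩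
  | p5 a b c d e =>
    simp only [Code.ok, Bool.and_eq_true, Nat.blt_eq] at hc
    obtain ⟨⟨⟨⟨⟨⟨⟨⟨⟨⟨⟨⟨⟨⟨ha, hb⟩, hc'⟩, hd⟩, he⟩, _⟩, _⟩, _⟩, _⟩, _⟩, _⟩, _⟩, _⟩, _⟩, _⟩ := hc
    -- the positive literals
    have key : ∀ x y : ℕ, x < 24 → y < 24 → G.Adj (t x) (t y) →
        ev x y ∈ pv x y ∧ val G g t (ev x y) = true := by
      intro x y hx hy hA
      refine ⟨?_, (val_ev g t hx hy).2 hA⟩
      rw [pv]
      have hne : fcol x ≠ fcol y := by
        rw [← ht x hx, ← ht y hy]
        exact hf _ _ hA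
      have : Nat.beq (fcol x) (fcol y) = false := by
        rcases h : Nat.beq (fcol x) (fcol y) with _ | _
        · rfl
        · exact absurd (Nat.eq_of_beq_eq_true h) hne
      rw [this]
      simp
    by_contra hcon
    rw [not_or] at hcon
    obtain ⟨hpos, hneg⟩ := hcon
    have e1 : ∀ x y : ℕ, x < 24 → y < 24 → ev x y ∈ Code.neg (.p5 a b c d e) →
        G.Adj (t x) (t y) := by
      intro x y hx hy hm
      rw [← val_ev g t hx hy]
      by_contra h'
      exact hneg ⟨_, hm, false_of_not h'⟩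
    have e2 : ∀ x y : ℕ, x < 24 → y < 24 → (∀ z ∈ pv x y, z ∈ Code.pos (.p5 a b c d e)) →
        ¬ G.Adj (t x) (t y) := by
      intro x y hx hy hm hA
      obtain ⟨k1, k2⟩ := key x y hx hy hA
      exact hpos ⟨_, hm _ k1, k2⟩
    refine no_path hP (e1 a b ha hb (by simp [Code.neg])) (e1 b c hb hc' (by simp [Code.neg]))
      (e1 c d hc' hd (by simp [Code.neg])) (e1 d e hd he (by simp [Code.neg]))
      (e2 a c ha hc' ?_) (e2 a d ha hd ?_) (e2 a e ha he ?_) (e2 b d hb hd ?_) (e2 b e hb he ?_)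
      (e2 c e hc' he ?_) <;>
    · intro z hz
      simp only [Code.pos, List.mem_append]
      tauto

theorem core (hP : IsEmpty (SimpleGraph.pathGraph 5 ↪g G)) (g f : V → ℕ) (t : ℕ → V)
    (hg3 : ∀ v, g v < 3) (hg : ∀ u v, G.Adj u v → g u ≠ g v) (hf : ∀ u v, G.Adj u v → f u ≠ f v)
    (ht : ∀ i, i < 24 → f (t i) = fcol i)
    (hpar : ∀ i, i ≠ 0 → i < 24 → G.Adj (t i) (t (par i)))
    (h0 : g (t 0) = 0) (h1 : g (t 1) = 1) (h2 : g (t 2) = 1) : False := by
  refine checkAll_sound (v := val G g t) (codes.map Prod.snd) 637 steps check fun c hc => ?_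
  obtain ⟨x, hx, rfl⟩ := List.mem_map.1 hc
  obtain ⟨k1, k2, k3⟩ := okAll_mem codes codes_ok x hx
  rw [← k2, ← k3]
  exact sat_code hP g f t hg3 hg hf ht hpar h0 h1 h2 x.1 k1

/-- The terms. -/
theorem exists_terms (f : V → ℕ) (r n1 n2 : V) (hr : f r = 0) (hn1 : f n1 = 1) (hn2 : f n2 = 2)
    (hrn1 : G.Adj r n1) (hrn2 : G.Adj r n2)
    (hfr : ∀ v : V, ∀ i : ℕ, i < 4 → i ≠ f v → ∃ w, G.Adj v w ∧ f w = i) :
    ∃ t : ℕ → V, t 0 = r ∧ t 1 = n1 ∧ t 2 = n2 ∧ (∀ i, i < 24 → f (t i) = fcol i) ∧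
      ∀ i, i ≠ 0 → i < 24 → G.Adj (t i) (t (par i)) := by
  have hpar : ∀ i, i ≠ 0 → i < 24 → par i < i ∧ fcol i ≠ fcol (par i) ∧ fcol i < 4 := by
    have : ∀ i : Fin 24, i.1 ≠ 0 → par i.1 < i.1 ∧ fcol i.1 ≠ fcol (par i.1) ∧ fcol i.1 < 4 := by
      decide
    exact fun i hi hi' => this ⟨i, hi'⟩ hi
  have key : ∀ n : ℕ, 2 ≤ n → n < 24 → ∃ t : ℕ → V, t 0 = r ∧ t 1 = n1 ∧ t 2 = n2 ∧
      (∀ i, i ≤ n → f (t i) = fcol i) ∧ ∀ i, i ≠ 0 → i ≤ n → G.Adj (t i) (t (par i)) := by
    intro n hn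
    induction n, hn using Nat.le_induction with
    | base =>
      intro _
      refine ⟨fun i => if i = 0 then r else if i = 1 then n1 else n2, rfl, rfl, rfl, ?_, ?_⟩
      · intro i hi
        interval_cases i
        · exact hr
        · exact hn1
        · exact hn2
      · intro i hi0 hi
        interval_cases i
        · exact absurd rfl hi0
        · exact hrn1.symm
        · exact hrn2.symm
    | succ n hn ih =>
      intro hn'
      obtain ⟨t, t0, t1, t2, hf', hadj⟩ := ih (by omega)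
      obtain ⟨p1, p2, p3⟩ := hpar (n + 1) (by omega) hn'
      obtain ⟨w, hw, hfw⟩ := hfr (t (par (n + 1))) (fcol (n + 1)) p3
        (by rw [hf' _ (by omega)]; exact p2)
      refine ⟨Function.update t (n + 1) w, ?_, ?_, ?_, ?_, ?_⟩
      · rw [Function.update_of_ne (by omega), t0]
      · rw [Function.update_of_ne (by omega), t1]
      · rw [Function.update_of_ne (by omega), t2]
      · intro i hi
        rcases Nat.lt_or_ge i (n + 1) with h | h
        · rw [Function.update_of_ne (by omega)]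
          exact hf' i (by omega)
        · obtain rfl : i = n + 1 := by omega
          rw [Function.update_self]
          exact hfw
      · intro i hi0 hi
        rcases Nat.lt_or_ge i (n + 1) with h | h
        · have := (hpar i hi0 (by omega)).1
          rw [Function.update_of_ne (by omega), Function.update_of_ne (by omega)]
          exact hadj i hi0 (by omega)
        · obtain rfl : i = n + 1 := by omega
          rw [Function.update_self, Function.update_of_ne (by omega)]
          exact hw.symm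
  obtain ⟨t, t0, t1, t2, h1, h2⟩ := key 23 (by norm_num) (by norm_num)
  exact ⟨t, t0, t1, t2, fun i hi => h1 i (by omega), fun i hi0 hi => h2 i hi0 (by omega)⟩

theorem exists_perm4 : ∀ a b c : Fin 4, a ≠ b → a ≠ c → b ≠ c →
    ∃ σ : Equiv.Perm (Fin 4), σ a = 0 ∧ σ b = 1 ∧ σ c = 2 := by
  decide

theorem exists_perm3 : ∀ a b : Fin 3, a ≠ b → ∃ σ : Equiv.Perm (Fin 3), σ a = 0 ∧ σ b = 1 := by
  decide

/-- **The theorem.** A graph with a proper `3`-colouring and without induced paths on five vertices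
has no frozen `4`-colouring. -/
theorem no_frozen [Nonempty V] (h3 : G.Colorable 3) (hP : IsEmpty (SimpleGraph.pathGraph 5 ↪g G))
    (c : G.Coloring (Fin 4))
    (hc : ∀ v : V, ∀ i : Fin 4, i ≠ c v → ∃ w : V, G.Adj v w ∧ c w = i) : False := by
  obtain ⟨g⟩ := h3
  obtain ⟨r⟩ := (inferInstance : Nonempty V)
  choose! nb hadj hcol using hc
  -- two of the three neighbours have the same colour
  obtain ⟨i, j, hi, hj, hij, hgij⟩ : ∃ i j : Fin 4, i ≠ c r ∧ j ≠ c r ∧ i ≠ j ∧
      g (nb r i) = g (nb r j) := by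
    by_contra hcon
    push Not at hcon
    have h1 : ∀ i : Fin 4, i ≠ c r → g (nb r i) ≠ g r := fun i hi h =>
      g.valid (hadj r i hi) h.symm
    have h2 : ∀ (p : Fin 4) (q : Fin 4 → Fin 3) (s : Fin 3), (∀ i, i ≠ p → q i ≠ s) →
        ∃ i j : Fin 4, i ≠ p ∧ j ≠ p ∧ i ≠ j ∧ q i = q j := by
      decide
    obtain ⟨i, j, k1, k2, k3, k4⟩ := h2 (c r) (fun i => g (nb r i)) (g r) h1
    exact hcon i j k1 k2 k3 k4
  obtain ⟨σ, s1, s2, s3⟩ := exists_perm4 (c r) i j hi.symm hj.symm hij
  have hgr : g r ≠ g (nb r i) := g.valid (hadj r i hi)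
  obtain ⟨τ, u1, u2⟩ := exists_perm3 (g r) (g (nb r i)) hgr
  let f : V → ℕ := fun v => (σ (c v) : ℕ)
  let g' : V → ℕ := fun v => (τ (g v) : ℕ)
  have hfr : ∀ v : V, ∀ k : ℕ, k < 4 → k ≠ f v → ∃ w, G.Adj v w ∧ f w = k := by
    intro v k hk hkv
    have hne : σ.symm ⟨k, hk⟩ ≠ c v := by
      intro h
      apply hkv
      have : σ (c v) = ⟨k, hk⟩ := by rw [← h, Equiv.apply_symm_apply]
      change k = (σ (c v) : ℕ)
      rw [this]
    refine ⟨nb v (σ.symm ⟨k, hk⟩), hadj v _ hne, ?_⟩
    change ((σ (c (nb v (σ.symm ⟨k, hk⟩))) : Fin 4) : ℕ) = k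
    rw [hcol v _ hne, Equiv.apply_symm_apply]
  obtain ⟨t, t0, t1, t2, ht, hpar⟩ := exists_terms (G := G) f r (nb r i) (nb r j)
    (by change ((σ (c r) : Fin 4) : ℕ) = 0; rw [s1]; rfl)
    (by change ((σ (c (nb r i)) : Fin 4) : ℕ) = 1; rw [hcol r i hi, s2]; rfl)
    (by change ((σ (c (nb r j)) : Fin 4) : ℕ) = 2; rw [hcol r j hj, s3]; rfl)
    (hadj r i hi) (hadj r j hj) hfr
  refine core hP g' f t (fun v => (τ (g v)).2) (fun u v huv h => ?_) (fun u v huv h => ?_) ht hpar
    ?_ ?_ ?_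
  · exact g.valid huv (τ.injective (Fin.ext h))
  · exact c.valid huv (σ.injective (Fin.ext h))
  · change ((τ (g (t 0)) : Fin 3) : ℕ) = 0
    rw [t0, u1]; rfl
  · change ((τ (g (t 1)) : Fin 3) : ℕ) = 1
    rw [t1, u2]; rfl
  · change ((τ (g (t 2)) : Fin 3) : ℕ) = 1
    rw [t2, ← hgij, u2]; rfl

end

end Pool.Agent.Q45.P5
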