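import Mathlib

/-!
# A small checker for propositional refutations

Clauses are pairs of bit masks (positive, negative literals). The checker verifies a list of
clauses by reverse unit propagation, each with a list of hints.
-/

set_option autoImplicit false

namespace Pool.Agent.Q45.Rup

/-- The mask of a list of variables. -/
def mask : List Nat → Nat
  | [] => 0
  | x :: l => Nat.lor (Nat.shiftLeft 1 x) (mask l)

theorem testBit_mask (l : List Nat) (i : Nat) : (mask l).testBit i = true ↔ i ∈ l := by
  induction l with
  | nil => simp [mask]
  | cons x l ih =>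
    have h : mask (x :: l) = (1 <<< x) ||| mask l := rfl
    rw [h, Nat.testBit_or, Bool.or_eq_true, ih, List.mem_cons]
    rw [Nat.one_shiftLeft, Nat.testBit_two_pow]
    simp only [decide_eq_true_eq]
    constructor
    · rintro (h | h)
      · exact Or.inl h.symm
      · exact Or.inr h
    · rintro (h | h)
      · exact Or.inl h.symm
      · exact Or.inr h

/-- The clause with positive literals `P` and negative literals `N` holds under `v`. -/
def Sat (v : Nat → Bool) (P N : Nat) : Prop :=
  ∃ i, (P.testBit i = true ∧ v i = true) ∨ (N.testBit i = true ∧ v i = false)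

theorem sat_mask {v : Nat → Bool} {pos neg : List Nat}
    (h : (∃ x ∈ pos, v x = true) ∨ (∃ x ∈ neg, v x = false)) : Sat v (mask pos) (mask neg) := by
  rcases h with ⟨x, hx, hv⟩ | ⟨x, hx, hv⟩
  · exact ⟨x, Or.inl ⟨(testBit_mask pos x).2 hx, hv⟩⟩
  · exact ⟨x, Or.inr ⟨(testBit_mask neg x).2 hx, hv⟩⟩

/-- A database of clauses. -/
inductive DB
  | leaf : DB
  | node (P N : Nat) (l r : DB) : DB

/-- The clause at a position. -/
def DB.get : DB → Nat → Nat × Nat
  | .leaf, _ => (1, 1)
  | .node P N l r, i =>
    cond (Nat.beq i 1) (P, N)
      (cond (Nat.beq (Nat.mod i 2) 0) (l.get (Nat.div i 2)) (r.get (Nat.div i 2)))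

/-- Insert a clause. -/
def DB.ins : DB → Nat → Nat → Nat → DB
  | .leaf, _, P, N => .node P N .leaf .leaf
  | .node P' N' l r, i, P, N =>
    cond (Nat.beq i 1) (.node P N l r)
      (cond (Nat.beq (Nat.mod i 2) 0) (.node P' N' (l.ins (Nat.div i 2) P N) r)
        (.node P' N' l (r.ins (Nat.div i 2) P N)))

/-- All clauses hold. -/
def DB.Valid (v : Nat → Bool) : DB → Prop
  | .leaf => True
  | .node P N l r => Sat v P N ∧ l.Valid v ∧ r.Valid v

theorem sat_one_one (v : Nat → Bool) : Sat v 1 1 := by
  refine ⟨0, ?_⟩
  rcases h : v 0 with _ | _
  · exact Or.inr ⟨by decide, rfl⟩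
  · exact Or.inl ⟨by decide, rfl⟩

theorem DB.get_valid {v : Nat → Bool} : ∀ (db : DB), db.Valid v → ∀ i,
    Sat v (db.get i).1 (db.get i).2
  | .leaf, _, _ => sat_one_one v
  | .node P N l r, h, i => by
    rw [DB.get]
    rcases hb : Nat.beq i 1 with _ | _
    · rcases hc : Nat.beq (Nat.mod i 2) 0 with _ | _
      · exact DB.get_valid r h.2.2 _
      · exact DB.get_valid l h.2.1 _
    · exact h.1

theorem DB.ins_valid {v : Nat → Bool} : ∀ (db : DB), db.Valid v → ∀ i P N, Sat v P N →
    (db.ins i P N).Valid v
  | .leaf, _, _, _, _, h => ⟨h, trivial, trivial⟩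
  | .node P' N' l r, h, i, P, N, hs => by
    rw [DB.ins]
    rcases hb : Nat.beq i 1 with _ | _
    · rcases hc : Nat.beq (Nat.mod i 2) 0 with _ | _
      · exact ⟨h.1, h.2.1, DB.ins_valid r h.2.2 _ _ _ hs⟩
      · exact ⟨h.1, DB.ins_valid l h.2.1 _ _ _ hs, h.2.2⟩
    · exact ⟨hs, h.2⟩

/-- At most one bit is set. -/
def single (x : Nat) : Bool := Nat.beq (Nat.land x (Nat.sub x 1)) 0

theorem single_eq {x i j : Nat} (h : single x = true) (hi : x.testBit i = true)
    (hj : x.testBit j = true) : i = j := by
  have h0 : x ≠ 0 := by
    rintro rfl
    simp at hi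
  have h1 : x &&& (x - 1) = 0 := Nat.eq_of_beq_eq_true h
  obtain ⟨k, rfl⟩ := (Nat.and_sub_one_eq_zero_iff_isPowerOfTwo h0).1 h1
  rw [Nat.testBit_two_pow, decide_eq_true_eq] at hi hj
  rw [← hi, hj]

/-- Reverse unit propagation: `T`, `F` are the masks of the variables which are true, false. -/
def rup (db : DB) : List Nat → Nat → Nat → Bool
  | [], _, _ => false
  | h :: hs, T, F =>
    match db.get h with
    | (P, N) =>
      cond (Nat.beq (Nat.land N T) N)
        (cond (Nat.beq (Nat.land P F) P) true
          (cond (single (Nat.xor P (Nat.land P F)))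
            (rup db hs (Nat.lor T (Nat.xor P (Nat.land P F))) F) false))
        (cond (Nat.beq (Nat.land P F) P)
          (cond (single (Nat.xor N (Nat.land N T)))
            (rup db hs T (Nat.lor F (Nat.xor N (Nat.land N T)))) false) false)

/-- The valuation agrees with the masks. -/
def Agree (v : Nat → Bool) (T F : Nat) : Prop :=
  ∀ i, (T.testBit i = true → v i = true) ∧ (F.testBit i = true → v i = false)

theorem rup_sound {v : Nat → Bool} {db : DB} (hdb : db.Valid v) : ∀ (hs : List Nat) (T F : Nat),
    rup db hs T F = true → ¬ Agree v T F
  | [], _, _, h => by simp [rup] at h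
  | x :: hs, T, F, h => by
    intro hA
    rw [rup] at h
    rcases hPN : db.get x with ⟨P, N⟩
    have hs0 := DB.get_valid db hdb x
    rw [hPN] at hs0 h
    simp only at hs0 h
    -- falsified masks
    have hN : ∀ i, (Nat.land N T).testBit i = true → v i = true := by
      intro i hi
      have : (N &&& T).testBit i = true := hi
      rw [Nat.testBit_and, Bool.and_eq_true] at this
      exact (hA i).1 this.2
    have hP : ∀ i, (Nat.land P F).testBit i = true → v i = false := by
      intro i hi
      have : (P &&& F).testBit i = true := hi
      rw [Nat.testBit_and, Bool.and_eq_true] at this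
      exact (hA i).2 this.2
    have hpx : ∀ i, P.testBit i = true → v i = true →
        (Nat.xor P (Nat.land P F)).testBit i = true := by
      intro i hi hv
      have h1 : (P ^^^ (P &&& F)).testBit i = true := by
        rw [Nat.testBit_xor, hi]
        have : (P &&& F).testBit i = false := by
          by_contra hc
          rw [Bool.not_eq_false] at hc
          have := hP i hc
          rw [hv] at this
          exact absurd this (by decide)
        rw [this]; rfl
      exact h1
    have hnx : ∀ i, N.testBit i = true → v i = false →
        (Nat.xor N (Nat.land N T)).testBit i = true := by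
      intro i hi hv
      have h1 : (N ^^^ (N &&& T)).testBit i = true := by
        rw [Nat.testBit_xor, hi]
        have : (N &&& T).testBit i = false := by
          by_contra hc
          rw [Bool.not_eq_false] at hc
          have := hN i hc
          rw [hv] at this
          exact absurd this (by decide)
        rw [this]; rfl
      exact h1
    obtain ⟨i, hi⟩ := hs0
    rcases hb : Nat.beq (Nat.land N T) N with _ | _ <;> rw [hb] at h
    · -- `N` is not falsified
      rcases hc : Nat.beq (Nat.land P F) P with _ | _ <;> rw [hc] at h
      · exact absurd h (by simp)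
      · simp only [cond_true, cond_false] at h
        have hc' : Nat.land P F = P := Nat.eq_of_beq_eq_true hc
        rcases hd : single (Nat.xor N (Nat.land N T)) with _ | _ <;> rw [hd] at h
        · exact absurd h (by simp)
        · simp only [cond_true] at h
          refine rup_sound hdb hs _ _ h fun j => ⟨(hA j).1, fun hj => ?_⟩
          have hj' : (F ||| (Nat.xor N (Nat.land N T))).testBit j = true := hj
          rw [Nat.testBit_or, Bool.or_eq_true] at hj'
          rcases hj' with hj' | hj'
          · exact (hA j).2 hj'
          · rcases hi with ⟨hi1, hi2⟩ | ⟨hi1, hi2⟩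
            · have := hP i (by rw [hc']; exact hi1)
              rw [hi2] at this
              exact absurd this (by decide)
            · have h1 := hnx i hi1 hi2
              rw [← single_eq hd h1 hj']
              exact hi2
    · simp only [cond_true] at h
      have hb' : Nat.land N T = N := Nat.eq_of_beq_eq_true hb
      rcases hc : Nat.beq (Nat.land P F) P with _ | _ <;> rw [hc] at h
      · simp only [cond_false] at h
        rcases hd : single (Nat.xor P (Nat.land P F)) with _ | _ <;> rw [hd] at h
        · exact absurd h (by simp)
        · simp only [cond_true] at h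
          refine rup_sound hdb hs _ _ h fun j => ⟨fun hj => ?_, (hA j).2⟩
          have hj' : (T ||| (Nat.xor P (Nat.land P F))).testBit j = true := hj
          rw [Nat.testBit_or, Bool.or_eq_true] at hj'
          rcases hj' with hj' | hj'
          · exact (hA j).1 hj'
          · rcases hi with ⟨hi1, hi2⟩ | ⟨hi1, hi2⟩
            · have h1 := hpx i hi1 hi2
              rw [← single_eq hd h1 hj']
              exact hi2
            · have := hN i (by rw [hb']; exact hi1)
              rw [hi2] at this
              exact absurd this (by decide)
      · have hc' : Nat.land P F = P := Nat.eq_of_beq_eq_true hc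
        rcases hi with ⟨hi1, hi2⟩ | ⟨hi1, hi2⟩
        · have := hP i (by rw [hc']; exact hi1)
          rw [hi2] at this
          exact absurd this (by decide)
        · have := hN i (by rw [hb']; exact hi1)
          rw [hi2] at this
          exact absurd this (by decide)

/-- Check a list of clauses (positive mask, negative mask, hints); the last one is empty. -/
def run : List (Nat × Nat × List Nat) → Nat → DB → Bool
  | [], _, _ => false
  | (P, N, hs) :: rest, k, db =>
    cond (rup db hs N P)
      (cond (Nat.beq (Nat.lor P N) 0) true (run rest (Nat.succ k) (db.ins k P N))) false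

theorem run_sound {v : Nat → Bool} : ∀ (l : List (Nat × Nat × List Nat)) (k : Nat) (db : DB),
    db.Valid v → run l k db = true → False
  | [], _, _, _, h => by simp [run] at h
  | (P, N, hs) :: rest, k, db, hdb, h => by
    rw [run] at h
    rcases hb : rup db hs N P with _ | _ <;> rw [hb] at h
    · exact absurd h (by simp)
    · simp only [cond_true] at h
      have h1 := rup_sound hdb hs N P hb
      have hsat : Sat v P N := by
        by_contra hc
        apply h1
        intro i
        constructor
        · intro hi
          by_contra hv
          exact hc ⟨i, Or.inr ⟨hi, by simpa using hv⟩⟩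
        · intro hi
          by_contra hv
          exact hc ⟨i, Or.inl ⟨hi, by simpa using hv⟩⟩
      rcases hc : Nat.beq (Nat.lor P N) 0 with _ | _ <;> rw [hc] at h
      · exact run_sound rest _ _ (DB.ins_valid db hdb _ _ _ hsat) h
      · have h2 : P ||| N = 0 := Nat.eq_of_beq_eq_true hc
        obtain ⟨i, hi⟩ := hsat
        have h3 : (P ||| N).testBit i = true := by
          rw [Nat.testBit_or, Bool.or_eq_true]
          rcases hi with hi | hi
          · exact Or.inl hi.1
          · exact Or.inr hi.1
        rw [h2] at h3
        simp at h3

/-- Insert a list of clauses, starting at position `k`. -/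
def build : List (Nat × Nat) → Nat → DB → DB
  | [], _, db => db
  | (P, N) :: rest, k, db => build rest (Nat.succ k) (db.ins k P N)

theorem build_valid {v : Nat → Bool} : ∀ (l : List (Nat × Nat)) (k : Nat) (db : DB), db.Valid v →
    (∀ c ∈ l, Sat v c.1 c.2) → (build l k db).Valid v
  | [], _, _, h, _ => h
  | (P, N) :: rest, k, db, h, hl => by
    rw [build]
    exact build_valid rest _ _ (DB.ins_valid db h _ _ _ (hl (P, N) List.mem_cons_self))
      fun c hc => hl c (List.mem_cons_of_mem _ hc)

end Pool.Agent.Q45.Rup
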